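import Pool.Agent.Helper49.RZ.St

/-!
# Project RZ (MP_77656e_ag), module L2: the five lemma and devissage
-/

set_option autoImplicit false

namespace Pool.Agent.Helper9.RZL

open Pool.Agent.Helper17.RZ Pool.Agent.Helper49.RZ

universe u v w v' w' w₁ w₂ w₃ w₄ w₅ w₆

theorem five : Five.{u, w₁, w₂, w₃, w₄, w₅, w₆} := by
  intro k _ A B C A' B' C' s s' a b c hb hc ha hc'
  have exB : ∀ n (x : B.X n), s.β.f n x = 0 → x = s.α.f n (s.π n x) := by
    intro n x hx
    have := s.sum n x
    rw [hx, map_zero, add_zero] at this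
    exact this.symm
  have exB' : ∀ n (x : B'.X n), s'.β.f n x = 0 → x = s'.α.f n (s'.π n x) := by
    intro n x hx
    have := s'.sum n x
    rw [hx, map_zero, add_zero] at this
    exact this.symm
  have inA : ∀ n (x y : A.X n), s.α.f n x = s.α.f n y → x = y := by
    intro n x y h
    rw [← s.πα n x, h, s.πα]
  have inA' : ∀ n (x y : A'.X n), s'.α.f n x = s'.α.f n y → x = y := by
    intro n x y h
    rw [← s'.πα n x, h, s'.πα]
  -- the connecting element of a closed element
  have conn : ∀ {n m m' : ℤ} (h : n + 1 = m) (h' : m + 1 = m') (v : C.X n), C.d h v = 0 →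
      ∃ r : A.X m, A.d h' r = 0 ∧ B.d h (s.σ n v) = s.α.f m r := by
    intro n m m' h h' v hv
    have h1 : s.β.f m (B.d h (s.σ n v)) = 0 := by
      rw [s.β.comm, s.βσ, hv]
    refine ⟨s.π m (B.d h (s.σ n v)), ?_, exB _ _ h1⟩
    apply inA
    rw [s.α.comm, ← exB _ _ h1, B.d_d, map_zero]
  refine ⟨?_, ?_⟩
  · intro l n m h₁ h₂ x y hx hxy
    -- image in `C`
    have e1 : C.d h₂ (s.β.f n x) = 0 := by rw [← s.β.comm, hx, map_zero]
    have e2 : c.f n (s.β.f n x) = C'.d h₁ (s'.β.f l y) := by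
      rw [hc, hxy, s'.β.comm]
    obtain ⟨z, hz⟩ := hc'.inj h₁ h₂ _ _ e1 e2
    have e3 : s.β.f n (x - B.d h₁ (s.σ l z)) = 0 := by
      rw [map_sub, s.β.comm, s.βσ, ← hz, sub_self]
    have e4 := exB _ _ e3
    generalize s.π n (x - B.d h₁ (s.σ l z)) = t at e4
    have e5 : A.d h₂ t = 0 := by
      apply inA
      rw [s.α.comm, ← e4, map_sub, hx, B.d_d, sub_zero, map_zero]
    -- the element `y1`
    have e6 : s'.α.f n (a.f n t) = B'.d h₁ (y - b.f l (s.σ l z)) := by
      rw [← hb, ← e4, map_sub, map_sub, hxy, b.comm]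
    generalize hy1 : y - b.f l (s.σ l z) = y1 at e6
    have e7 : C'.d h₁ (s'.β.f l y1) = 0 := by
      rw [← s'.β.comm, ← e6, s'.βα]
    obtain ⟨v, w', hv, hvw⟩ := hc'.surj (show l - 1 + 1 = l by omega) h₁ _ e7
    obtain ⟨r, hr, hr2⟩ := conn h₁ h₂ v hv
    have e8 : s'.β.f l (y1 - b.f l (s.σ l v) - B'.d (show l - 1 + 1 = l by omega) (s'.σ _ w')) = 0 := by
      rw [map_sub, map_sub, ← hc, s.βσ, s'.β.comm, s'.βσ, hvw]
      abel
    have e9 := exB' _ _ e8
    generalize s'.π l (y1 - b.f l (s.σ l v) - B'.d (show l - 1 + 1 = l by omega) (s'.σ _ w')) = t' at e9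
    have e10 : a.f n (t - r) = A'.d h₁ t' := by
      apply inA'
      rw [map_sub, map_sub, s'.α.comm, ← e9, map_sub, map_sub, B'.d_d, ← e6, sub_zero, ← hb n r, ← hr2,
        b.comm]
    obtain ⟨q, hq⟩ := ha.inj h₁ h₂ (t - r) t' (by rw [map_sub, e5, hr, sub_zero]) e10
    refine ⟨s.σ l v + s.α.f l q + s.σ l z, ?_⟩
    rw [map_add, map_add, hr2, ← s.α.comm, ← hq, map_sub, ← e4]
    abel
  · intro l n m h₁ h₂ y hy
    have e1 : C'.d h₂ (s'.β.f n y) = 0 := by rw [← s'.β.comm, hy, map_zero]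
    obtain ⟨v, w', hv, hvw⟩ := hc'.surj h₁ h₂ _ e1
    obtain ⟨r, hr, hr2⟩ := conn h₂ (rfl : m + 1 = m + 1) v hv
    have e8 : s'.β.f n (y - b.f n (s.σ n v) - B'.d h₁ (s'.σ _ w')) = 0 := by
      rw [map_sub, map_sub, ← hc, s.βσ, s'.β.comm, s'.βσ, hvw]
      abel
    have e9 := exB' _ _ e8
    generalize s'.π n (y - b.f n (s.σ n v) - B'.d h₁ (s'.σ _ w')) = t' at e9
    have e10 : a.f m r = A'.d h₂ (- t') := by
      apply inA'
      rw [s'.α.comm, map_neg, ← e9, map_neg, map_sub, map_sub, B'.d_d, hy, ← hb, ← hr2, b.comm]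
      abel
    obtain ⟨q, hq⟩ := ha.inj h₂ (rfl : m + 1 = m + 1) r _ hr e10
    have e11 : A'.d h₂ (t' + a.f n q) = 0 := by
      rw [map_add, ← a.comm, ← hq, e10, map_neg, add_neg_cancel]
    obtain ⟨x, z', hx, hxz⟩ := ha.surj h₁ h₂ _ e11
    refine ⟨s.σ n v - s.α.f n q + s.α.f n x, s'.α.f l z' + s'.σ l w', ?_, ?_⟩
    · rw [map_add, map_sub, hr2, ← s.α.comm, ← s.α.comm, hx, ← hq, sub_self, map_zero, add_zero]
    · have e12 : s'.α.f n t' + s'.α.f n (a.f n q) = s'.α.f n (a.f n x) + B'.d h₁ (s'.α.f l z') := by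
        rw [← map_add, hxz, map_add, s'.α.comm]
      rw [map_add, map_sub, map_add, hb, hb]
      rw [← e9] at e12
      have e13 : y = (y - b.f n (s.σ n v) - B'.d h₁ (s'.σ _ w')) + s'.α.f n (a.f n q) -
        s'.α.f n (a.f n q) + b.f n (s.σ n v) + B'.d h₁ (s'.σ _ w') := by abel
      rw [e13, e12]
      abel


/-! ### signs and shifts -/

theorem sign_sign {M : Type*} [AddCommGroup M] (e : ℤˣ) (x : M) : (e : ℤ) • ((e : ℤ) • x) = x := by
  rw [smul_smul, ← Units.val_mul, Int.units_mul_self, Units.val_one, one_smul]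

theorem sign_eq_zero {M : Type*} [AddCommGroup M] {e : ℤˣ} {x : M} (h : (e : ℤ) • x = 0) : x = 0 := by
  rw [← sign_sign e x, h, smul_zero]

/-- the shift of a map of complexes -/
def gshiftMap {k : Type u} [Field k] {A : GC.{u, w₁} k} {B : GC.{u, w₂} k} (F : GC.Map A B) (s : ℤ)
    (e : ℤˣ) : GC.Map (gshift A s e) (gshift B s e) where
  f n := F.f (n + s)
  comm {n m} h x := by
    change F.f (m + s) ((e : ℤ) • A.d _ x) = (e : ℤ) • B.d _ (F.f (n + s) x)
    rw [map_zsmul, F.comm]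

theorem gshift_QI {k : Type u} [Field k] {A : GC.{u, w₁} k} {B : GC.{u, w₂} k} (F : GC.Map A B) (s : ℤ)
    (e : ℤˣ) (hF : F.QI) : (gshiftMap F s e).QI := by
  refine ⟨?_, ?_⟩
  · intro l n m h₁ h₂ x y hx hy
    change (e : ℤ) • A.d _ x = 0 at hx
    change F.f (n + s) x = (e : ℤ) • B.d _ y at hy
    rw [← map_zsmul] at hy
    obtain ⟨z, hz⟩ := hF.inj _ _ x _ (sign_eq_zero hx) hy
    refine ⟨((e : ℤ) • z : A.X (l + s)), ?_⟩
    change x = (e : ℤ) • A.d _ ((e : ℤ) • z)
    rw [map_zsmul, sign_sign, hz]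
  · intro l n m h₁ h₂ y hy
    change (e : ℤ) • B.d _ y = 0 at hy
    obtain ⟨x, z, hx, hz⟩ := hF.surj (show l + s + 1 = n + s by omega) _ y (sign_eq_zero hy)
    refine ⟨x, ((e : ℤ) • z : B.X (l + s)), ?_, ?_⟩
    · change (e : ℤ) • A.d _ x = 0
      rw [hx, smul_zero]
    · change y = F.f (n + s) x + (e : ℤ) • B.d _ ((e : ℤ) • z)
      rw [map_zsmul, sign_sign]
      exact hz

/-! ### compositions with closed morphisms -/

section

variable {k : Type u} [Field k]

theorem closed_of {C : DGCat.{u, v, w} k} {X Y : C.Obj} {n m : ℤ} (h : n + 1 = m) {g : C.Hom X Y n}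
    (hg : C.d h g = 0) : ∀ m' (h' : n + 1 = m'), C.d h' g = 0 := by
  intro m' h'
  subst h h'
  exact hg

theorem d_comp_right {C : DGCat.{u, v, w} k} {X Y Z : C.Obj} {n m l n' l' : ℤ} (h : n + m = l)
    (hl : l + 1 = l') (hn : n + 1 = n') (h₁ : n' + m = l') (f : C.Hom Y Z n) (g : C.Hom X Y m)
    (hg : ∀ m' (h' : m + 1 = m'), C.d h' g = 0) :
    C.d hl (C.comp h f g) = C.comp h₁ (C.d hn f) g := by
  rw [C.d_comp h hl hn (rfl : m + 1 = m + 1) h₁ (by omega), hg, map_zero, smul_zero, add_zero]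

theorem d_comp_left {C : DGCat.{u, v, w} k} {X Y Z : C.Obj} {n m l m' l' : ℤ} (h : n + m = l)
    (hl : l + 1 = l') (hm : m + 1 = m') (h₂ : n + m' = l') (f : C.Hom Y Z n) (g : C.Hom X Y m)
    (hf : ∀ m' (h' : n + 1 = m'), C.d h' f = 0) :
    C.d hl (C.comp h f g) = n.negOnePow • C.comp h₂ f (C.d hm g) := by
  rw [C.d_comp h hl (rfl : n + 1 = n + 1) hm (by omega) h₂, hf, map_zero, LinearMap.zero_apply,
    zero_add]

theorem map_closed {C : DGCat.{u, v, w} k} {D : DGCat.{u, v', w'} k} (F : DGFun C D) {X Y : C.Obj}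
    {n : ℤ} {g : C.Hom X Y n} (hg : ∀ m' (h' : n + 1 = m'), C.d h' g = 0) :
    ∀ m' (h' : n + 1 = m'), D.d h' (F.map g) = 0 := by
  intro m' h'
  rw [← F.map_d, hg, map_zero]

/-- the data of a cone -/
structure CD (C : DGCat.{u, v, w} k) (X Y Z : C.Obj) where
  i : C.Hom Y Z 0
  p : C.Hom Z Y 0
  j : C.Hom X Z (-1)
  q : C.Hom Z X 1
  pi : C.comp (zero_add 0) p i = C.one Y
  qj : C.comp (add_neg_cancel 1) q j = C.one X
  sum : C.comp (zero_add 0) i p + C.comp (neg_add_cancel 1) j q = C.one Z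
  qi : C.comp (add_zero 1) q i = 0
  di : ∀ m' (h' : (0 : ℤ) + 1 = m'), C.d h' i = 0
  dq : ∀ m' (h' : (1 : ℤ) + 1 = m'), C.d h' q = 0

theorem exists_CD {C : DGCat.{u, v, w} k} {X Y Z : C.Obj} {f : C.Hom X Y 0} (h : IsCone C f Z) :
    Nonempty (CD C X Y Z) := by
  obtain ⟨i, p, j, q, h1, h2, h3, _, h5, h6, h7, _, _⟩ := h
  exact ⟨⟨i, p, j, q, h1, h2, h3, h5, closed_of _ h6, closed_of _ h7⟩⟩

/-- DG functors preserve the data of a cone -/
def CD.map {C : DGCat.{u, v, w} k} {D : DGCat.{u, v', w'} k} (F : DGFun C D) {X Y Z : C.Obj}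
    (c : CD C X Y Z) : CD D (F.obj X) (F.obj Y) (F.obj Z) where
  i := F.map c.i
  p := F.map c.p
  j := F.map c.j
  q := F.map c.q
  pi := by rw [← F.map_comp, c.pi, F.map_one]
  qj := by rw [← F.map_comp, c.qj, F.map_one]
  sum := by rw [← F.map_comp, ← F.map_comp, ← map_add, c.sum, F.map_one]
  qi := by rw [← F.map_comp, c.qi, map_zero]
  di := map_closed F c.di
  dq := map_closed F c.dq

theorem CD.sumL {C : DGCat.{u, v, w} k} {X X₂ Z : C.Obj} (c : CD C X X₂ Z) {Y : C.Obj} {n n' : ℤ}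
    (h1 : n + -1 = n') (h2 : n' + 1 = n) (h3 : n + 0 = n) (x : C.Hom Z Y n) :
    C.comp h2 (C.comp h1 x c.j) c.q + C.comp h3 (C.comp h3 x c.i) c.p = x := by
  rw [C.assoc _ _ (neg_add_cancel 1) h3, C.assoc _ _ (zero_add 0) h3, ← map_add, add_comm, c.sum,
    C.comp_one]

theorem CD.sumR {C : DGCat.{u, v, w} k} {X X₂ Z : C.Obj} (c : CD C X X₂ Z) {Y : C.Obj} {n n' : ℤ}
    (h1 : 1 + n = n') (h2 : -1 + n' = n) (h3 : 0 + n = n) (x : C.Hom Y Z n) :
    C.comp h3 c.i (C.comp h3 c.p x) + C.comp h2 c.j (C.comp h1 c.q x) = x := by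
  rw [← C.assoc (zero_add 0) h3 _ _, ← C.assoc (neg_add_cancel 1) h3 _ _, ← LinearMap.add_apply,
    ← map_add, c.sum, C.one_comp]

/-- the short exact sequence of a cone, first variable -/
def CD.sesL {C : DGCat.{u, v, w} k} {X X₂ Z : C.Obj} (c : CD C X X₂ Z) (Y : C.Obj) :
    SES (gshift (homC C X Y) (-1) 1) (homC C Z Y) (homC C X₂ Y) where
  α := {
    f := fun n => (C.comp (show n + -1 + 1 = n by omega)).flip c.q
    comm := by
      intro n m h x
      change C.comp _ ((1 : ℤ) • C.d _ x) c.q = C.d h (C.comp _ x c.q)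
      rw [one_smul, d_comp_right _ h (show n + -1 + 1 = m + -1 by omega) (by omega) x c.q c.dq] }
  β := {
    f := fun n => (C.comp (show n + 0 = n by omega)).flip c.i
    comm := by
      intro n m h x
      change C.comp _ (C.d h x) c.i = C.d h (C.comp _ x c.i)
      rw [d_comp_right _ h h (by omega) x c.i c.di] }
  π := fun n => (C.comp (show n + -1 = n + -1 by omega)).flip c.j
  σ := fun n => (C.comp (show n + 0 = n by omega)).flip c.p
  πα := by
    intro n x
    change C.comp _ (C.comp _ x c.q) c.j = x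
    rw [C.assoc _ _ (add_neg_cancel 1) (by omega), c.qj, C.comp_one]
  βσ := by
    intro n x
    change C.comp _ (C.comp _ x c.p) c.i = x
    rw [C.assoc _ _ (zero_add 0) (by omega), c.pi, C.comp_one]
  βα := by
    intro n x
    change C.comp _ (C.comp _ x c.q) c.i = 0
    rw [C.assoc _ _ (add_zero 1) (by omega), c.qi, map_zero]
  sum := by
    intro n x
    exact c.sumL _ _ _ x

/-- the short exact sequence of a cone, second variable -/
def CD.sesR {C : DGCat.{u, v, w} k} {Y Y₂ Z : C.Obj} (c : CD C Y Y₂ Z) (X : C.Obj) :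
    SES (homC C X Y₂) (homC C X Z) (gshift (homC C X Y) 1 (-1)) where
  α := {
    f := fun n => C.comp (show 0 + n = n by omega) c.i
    comm := by
      intro n m h x
      change C.comp _ c.i (C.d h x) = C.d h (C.comp _ c.i x)
      rw [d_comp_left _ h h (show 0 + m = m by omega) c.i x c.di, Int.negOnePow_zero, one_smul] }
  β := {
    f := fun n => C.comp (show 1 + n = n + 1 by omega) c.q
    comm := by
      intro n m h x
      change C.comp _ c.q (C.d h x) = ((-1 : ℤˣ) : ℤ) • C.d _ (C.comp _ c.q x)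
      rw [d_comp_left _ (show n + 1 + 1 = m + 1 by omega) h (show 1 + m = m + 1 by omega) c.q x c.dq,
        Int.negOnePow_one, Units.smul_def, sign_sign] }
  π := fun n => C.comp (show 0 + n = n by omega) c.p
  σ := fun n => C.comp (show -1 + (n + 1) = n by omega) c.j
  πα := by
    intro n x
    change C.comp _ c.p (C.comp _ c.i x) = x
    rw [← C.assoc (zero_add 0) (by omega) _ _, c.pi, C.one_comp]
  βσ := by
    intro n x
    change C.comp _ c.q (C.comp _ c.j x) = x
    rw [← C.assoc (add_neg_cancel 1) (by omega) _ _, c.qj, C.one_comp]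
  βα := by
    intro n x
    change C.comp _ c.q (C.comp _ c.i x) = 0
    rw [← C.assoc (add_zero 1) (by omega) _ _, c.qi, map_zero, LinearMap.zero_apply]
  sum := by
    intro n x
    exact c.sumR _ _ _ x

/-- quasi-isomorphisms of complexes of morphisms in explicit form -/
theorem QI_mk {C : DGCat.{u, v, w} k} {D : DGCat.{u, v', w'} k} {F : DGFun C D} {X Y : C.Obj}
    (h1 : ∀ {l n m : ℤ} (h₁ : l + 1 = n) (h₂ : n + 1 = m) (x : C.Hom X Y n)
      (y : D.Hom (F.obj X) (F.obj Y) l), C.d h₂ x = 0 → F.map x = D.d h₁ y →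
      ∃ z : C.Hom X Y l, x = C.d h₁ z)
    (h2 : ∀ {l n m : ℤ} (h₁ : l + 1 = n) (h₂ : n + 1 = m) (y : D.Hom (F.obj X) (F.obj Y) n),
      D.d h₂ y = 0 → ∃ (x : C.Hom X Y n) (z : D.Hom (F.obj X) (F.obj Y) l), C.d h₂ x = 0 ∧
        y = F.map x + D.d h₁ z) : (F.onHom X Y).QI :=
  ⟨fun h₁ h₂ x y => h1 h₁ h₂ x y, fun h₁ h₂ y => h2 h₁ h₂ y⟩

theorem QI_inj {C : DGCat.{u, v, w} k} {D : DGCat.{u, v', w'} k} {F : DGFun C D} {X Y : C.Obj}
    (h : (F.onHom X Y).QI) {l n m : ℤ} (h₁ : l + 1 = n) (h₂ : n + 1 = m) (x : C.Hom X Y n)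
    (y : D.Hom (F.obj X) (F.obj Y) l) (hx : C.d h₂ x = 0) (hxy : F.map x = D.d h₁ y) :
    ∃ z : C.Hom X Y l, x = C.d h₁ z := h.inj h₁ h₂ x y hx hxy

theorem QI_surj {C : DGCat.{u, v, w} k} {D : DGCat.{u, v', w'} k} {F : DGFun C D} {X Y : C.Obj}
    (h : (F.onHom X Y).QI) {l n m : ℤ} (h₁ : l + 1 = n) (h₂ : n + 1 = m)
    (y : D.Hom (F.obj X) (F.obj Y) n) (hy : D.d h₂ y = 0) :
    ∃ (x : C.Hom X Y n) (z : D.Hom (F.obj X) (F.obj Y) l), C.d h₂ x = 0 ∧
        y = F.map x + D.d h₁ z := h.surj h₁ h₂ y hy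

end

theorem devL : DevL.{u, v, w, v', w'} := by
  intro k _ C D F S Y hS X hX
  induction hX with
  | base X h => exact hS X h
  | shift X X' n _ hsh ih =>
    obtain ⟨f, g, hf, hg, hgf, hfg⟩ := hsh
    have hf' := closed_of _ hf
    have hg' := closed_of _ hg
    refine QI_mk ?_ ?_
    · intro l a m h₁ h₂ x y hx hxy
      have e1 : C.d (show a + -n + 1 = m + -n by omega) (C.comp (rfl : a + -n = a + -n) x f) = 0 := by
        rw [d_comp_right _ _ h₂ rfl x f hf', hx, map_zero, LinearMap.zero_apply]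
      have e2 : F.map (C.comp (rfl : a + -n = a + -n) x f) =
          D.d (show l + -n + 1 = a + -n by omega) (D.comp (rfl : l + -n = l + -n) y (F.map f)) := by
        rw [F.map_comp, hxy, d_comp_right _ _ h₁ rfl y _ (map_closed F hf')]
      obtain ⟨z, hz⟩ := QI_inj ih (show l + -n + 1 = a + -n by omega)
        (show a + -n + 1 = m + -n by omega) _ _ e1 e2
      refine ⟨C.comp (show l + -n + n = l by omega) z g, ?_⟩
      rw [d_comp_right _ h₁ (show l + -n + 1 = a + -n by omega) (show a + -n + n = a by omega) z g hg',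
        ← hz, C.assoc _ _ (neg_add_cancel n) (add_zero a), hfg, C.comp_one]
    · intro l a m h₁ h₂ y hy
      have e1 : D.d (show a + -n + 1 = m + -n by omega)
          (D.comp (rfl : a + -n = a + -n) y (F.map f)) = 0 := by
        rw [d_comp_right _ _ h₂ rfl y _ (map_closed F hf'), hy, map_zero, LinearMap.zero_apply]
      obtain ⟨x, z, hx, hz⟩ := QI_surj ih (show l + -n + 1 = a + -n by omega)
        (show a + -n + 1 = m + -n by omega) _ e1
      refine ⟨C.comp (show a + -n + n = a by omega) x g,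
        D.comp (show l + -n + n = l by omega) z (F.map g), ?_, ?_⟩
      · rw [d_comp_right _ h₂ (show a + -n + 1 = m + -n by omega) (by omega) x g hg', hx, map_zero,
          LinearMap.zero_apply]
      · rw [d_comp_right _ h₁ (show l + -n + 1 = a + -n by omega) (show a + -n + n = a by omega) z _
          (map_closed F hg'), F.map_comp, ← LinearMap.add_apply, ← map_add, ← hz,
          D.assoc _ _ (neg_add_cancel n) (add_zero a), ← F.map_comp, hfg, F.map_one, D.comp_one]
  | cone X X₂ Z f _ _ hf hc ih1 ih2 =>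
    obtain ⟨c⟩ := exists_CD hc
    refine five.{u, w, w, w, w', w', w'} (c.sesL Y) ((c.map F).sesL (F.obj Y))
      (gshiftMap (F.onHom X Y) (-1) 1) (F.onHom Z Y) (F.onHom X₂ Y) ?_ ?_
      (gshift_QI _ _ _ ih1) ih2
    · intro n x
      exact F.map_comp _ _ _
    · intro n x
      exact F.map_comp _ _ _
  | retract X X' _ hr ih =>
    obtain ⟨i, p, h, hi, hp, hpi⟩ := hr
    have hi' := closed_of _ hi
    have hp' := closed_of _ hp
    refine QI_mk ?_ ?_
    · intro l a m h₁ h₂ x y hx hxy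
      have e1 : C.d h₂ (C.comp (add_zero a) x p) = 0 := by
        rw [d_comp_right _ _ h₂ (add_zero m) x p hp', hx, map_zero, LinearMap.zero_apply]
      have e2 : F.map (C.comp (add_zero a) x p) = D.d h₁ (D.comp (add_zero l) y (F.map p)) := by
        rw [F.map_comp, hxy, d_comp_right _ _ h₁ (add_zero a) y _ (map_closed F hp')]
      obtain ⟨z, hz⟩ := QI_inj ih h₁ h₂ _ _ e1 e2
      refine ⟨C.comp (add_zero l) z i - a.negOnePow • C.comp (show a + -1 = l by omega) x h, ?_⟩
      rw [map_sub, d_comp_right _ h₁ h₁ (add_zero a) z i hi', ← hz,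
        C.assoc _ _ (zero_add 0) (add_zero a), hpi, map_add, C.comp_one, lin_sign,
        d_comp_left _ h₁ (neg_add_cancel 1) (add_zero a) x h (closed_of _ hx), smul_smul,
        Int.units_mul_self, one_smul, add_sub_cancel_right]
    · intro l a m h₁ h₂ y hy
      have e1 : D.d h₂ (D.comp (add_zero a) y (F.map p)) = 0 := by
        rw [d_comp_right _ _ h₂ (add_zero m) y _ (map_closed F hp'), hy, map_zero,
          LinearMap.zero_apply]
      obtain ⟨x, z, hx, hz⟩ := QI_surj ih h₁ h₂ _ e1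
      refine ⟨C.comp (add_zero a) x i, D.comp (add_zero l) z (F.map i) -
        a.negOnePow • D.comp (show a + -1 = l by omega) y (F.map h), ?_, ?_⟩
      · rw [d_comp_right _ h₂ h₂ (add_zero m) x i hi', hx, map_zero, LinearMap.zero_apply]
      · rw [map_sub, d_comp_right _ h₁ h₁ (add_zero a) z _ (map_closed F hi'), F.map_comp,
          ← add_sub_assoc, ← LinearMap.add_apply, ← map_add, ← hz,
          D.assoc _ _ (zero_add 0) (add_zero a), ← F.map_comp,
          hpi, map_add, map_add, F.map_one, D.comp_one, lin_sign,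
          d_comp_left _ h₁ (neg_add_cancel 1) (add_zero a) y _ (closed_of _ hy), smul_smul,
          Int.units_mul_self, one_smul, ← F.map_d, add_sub_cancel_right]

theorem devR : DevR.{u, v, w, v', w'} := by
  intro k _ C D F S X hS Y hY
  induction hY with
  | base Y h => exact hS Y h
  | shift Y Y' n _ hsh ih =>
    obtain ⟨f, g, hf, hg, hgf, hfg⟩ := hsh
    have hf' := closed_of _ hf
    have hg' := closed_of _ hg
    refine QI_mk ?_ ?_
    · intro l a m h₁ h₂ x y hx hxy
      have e1 : C.d (show n + a + 1 = n + m by omega) (C.comp (rfl : n + a = n + a) g x) = 0 := by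
        rw [d_comp_left _ _ h₂ rfl g x hg', hx, map_zero, smul_zero]
      have e2 : F.map (C.comp (rfl : n + a = n + a) g x) =
          D.d (show n + l + 1 = n + a by omega)
            (D.comp (rfl : n + l = n + l) (F.map g) (n.negOnePow • y)) := by
        rw [F.map_comp, hxy, d_comp_left _ _ h₁ rfl _ _ (map_closed F hg'), lin_sign, lin_sign,
          smul_smul, Int.units_mul_self, one_smul]
      obtain ⟨z, hz⟩ := QI_inj ih (show n + l + 1 = n + a by omega)
        (show n + a + 1 = n + m by omega) _ _ e1 e2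
      refine ⟨C.comp (show -n + (n + l) = l by omega) f ((-n).negOnePow • z), ?_⟩
      rw [d_comp_left _ h₁ (show n + l + 1 = n + a by omega) (show -n + (n + a) = a by omega) f _ hf',
        lin_sign, lin_sign, smul_smul, Int.units_mul_self, one_smul,
        ← hz, ← C.assoc (neg_add_cancel n) (zero_add a) _ _, hfg, C.one_comp]
    · intro l a m h₁ h₂ y hy
      have e1 : D.d (show n + a + 1 = n + m by omega)
          (D.comp (rfl : n + a = n + a) (F.map g) y) = 0 := by
        rw [d_comp_left _ _ h₂ rfl _ y (map_closed F hg'), hy, map_zero, smul_zero]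
      obtain ⟨x, z, hx, hz⟩ := QI_surj ih (show n + l + 1 = n + a by omega)
        (show n + a + 1 = n + m by omega) _ e1
      refine ⟨C.comp (show -n + (n + a) = a by omega) f x,
        D.comp (show -n + (n + l) = l by omega) (F.map f) ((-n).negOnePow • z), ?_, ?_⟩
      · rw [d_comp_left _ h₂ (show n + a + 1 = n + m by omega) (by omega) f x hf', hx, map_zero,
          smul_zero]
      · rw [d_comp_left _ h₁ (show n + l + 1 = n + a by omega) (show -n + (n + a) = a by omega) _ _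
          (map_closed F hf'), lin_sign, lin_sign, smul_smul, Int.units_mul_self, one_smul,
          F.map_comp, ← map_add, ← hz,
          ← D.assoc (neg_add_cancel n) (zero_add a) _ _, ← F.map_comp, hfg, F.map_one, D.one_comp]
  | cone Y Y₂ Z f _ _ hf hc ih1 ih2 =>
    obtain ⟨c⟩ := exists_CD hc
    refine five.{u, w, w, w, w', w', w'} (c.sesR X) ((c.map F).sesR (F.obj X))
      (F.onHom X Y₂) (F.onHom X Z) (gshiftMap (F.onHom X Y) 1 (-1)) ?_ ?_
      ih2 (gshift_QI _ _ _ ih1)
    · intro n x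
      exact F.map_comp _ _ _
    · intro n x
      exact F.map_comp _ _ _
  | retract Y Y' _ hr ih =>
    obtain ⟨i, p, h, hi, hp, hpi⟩ := hr
    have hi' := closed_of _ hi
    have hp' := closed_of _ hp
    refine QI_mk ?_ ?_
    · intro l a m h₁ h₂ x y hx hxy
      have e1 : C.d h₂ (C.comp (zero_add a) i x) = 0 := by
        rw [d_comp_left _ _ h₂ (zero_add m) i x hi', hx, map_zero, smul_zero]
      have e2 : F.map (C.comp (zero_add a) i x) = D.d h₁ (D.comp (zero_add l) (F.map i) y) := by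
        rw [F.map_comp, hxy, d_comp_left _ _ h₁ (zero_add a) _ y (map_closed F hi'),
          Int.negOnePow_zero, one_smul]
      obtain ⟨z, hz⟩ := QI_inj ih h₁ h₂ _ _ e1 e2
      refine ⟨C.comp (zero_add l) p z - C.comp (show -1 + a = l by omega) h x, ?_⟩
      rw [map_sub, d_comp_left _ h₁ h₁ (zero_add a) p z hp', ← hz, Int.negOnePow_zero, one_smul,
        ← C.assoc (zero_add 0) (zero_add a) _ _, hpi, map_add, LinearMap.add_apply, C.one_comp,
        d_comp_right _ h₁ (neg_add_cancel 1) (zero_add a) h x (closed_of _ hx), add_sub_cancel_right]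
    · intro l a m h₁ h₂ y hy
      have e1 : D.d h₂ (D.comp (zero_add a) (F.map i) y) = 0 := by
        rw [d_comp_left _ _ h₂ (zero_add m) _ y (map_closed F hi'), hy, map_zero, smul_zero]
      obtain ⟨x, z, hx, hz⟩ := QI_surj ih h₁ h₂ _ e1
      refine ⟨C.comp (zero_add a) p x, D.comp (zero_add l) (F.map p) z -
        D.comp (show -1 + a = l by omega) (F.map h) y, ?_, ?_⟩
      · rw [d_comp_left _ h₂ h₂ (zero_add m) p x hp', hx, map_zero, smul_zero]
      · rw [map_sub, d_comp_left _ h₁ h₁ (zero_add a) _ z (map_closed F hp'), Int.negOnePow_zero,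
          one_smul, F.map_comp, ← add_sub_assoc, ← map_add, ← hz,
          ← D.assoc (zero_add 0) (zero_add a) _ _, ← F.map_comp,
          hpi, map_add, map_add, LinearMap.add_apply, F.map_one, D.one_comp,
          d_comp_right _ h₁ (neg_add_cancel 1) (zero_add a) _ y (closed_of _ hy),
          ← F.map_d, add_sub_cancel_right]

/-- the DG category with one object and zero morphisms -/
def zeroCat (k : Type u) [Field k] : DGCat.{u, 0, 0} k where
  Obj := Unit
  Hom _ _ _ := PUnit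
  one _ := 0
  comp _ := 0
  d _ := 0
  one_comp _ _ := rfl
  comp_one _ _ := rfl
  assoc _ _ _ _ _ _ _ := rfl
  d_d _ _ _ := rfl
  d_comp _ _ _ _ _ _ _ _ := rfl

/-- the functor to the zero category -/
def zeroFun {k : Type u} [Field k] (C : DGCat.{u, v, w} k) : DGFun C (zeroCat k) where
  obj _ := ()
  map := 0
  map_one _ := rfl
  map_comp _ _ _ := rfl
  map_d _ _ := rfl

theorem zeroFun_QI {k : Type u} [Field k] (C : DGCat.{u, v, w} k) (X Y : C.Obj) :
    ((zeroFun C).onHom X Y).QI ↔ (homC C X Y).Acyclic := by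
  refine ⟨fun h l n m h₁ h₂ x hx => h.inj h₁ h₂ x PUnit.unit hx rfl, fun h => ⟨?_, ?_⟩⟩
  · intro l n m h₁ h₂ x y hx hxy
    exact h h₁ h₂ x hx
  · intro l n m h₁ h₂ y hy
    exact ⟨0, PUnit.unit, map_zero _, rfl⟩

theorem devA : DevA.{u, v, w} := by
  intro k _ C S Y hS X hX
  rw [← zeroFun_QI]
  exact devL.{u, v, w, 0, 0} (zeroFun C) S Y (fun X h => (zeroFun_QI C X Y).2 (hS X h)) X hX

end Pool.Agent.Helper9.RZL
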